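import Mathlib

/-!
# MP_46c3d4_gt: rectifiable `p`-spaces with countable Souslin number are Lindelöf

Let `φ (x, y) = (x, q x y)` be a rectification of `X`, with inverse `(x, y) ↦ (x, p x y)`. Since `X`
is a `p`-space, the point `e` lies in a compact set `K` with a countable neighbourhood base `V n`.
Let `𝒰` be an open cover. For each `x` the compact set `p x '' K` is covered by a finite subfamily
of `𝒰` with union `O x`, and by compactness there are `n = n x` and an open set `W x ∋ x` such that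
`W x ⊆ p y '' V n ⊆ O x` for all `y ∈ W x`. For fixed `n`, take a maximal disjoint family of
nonempty open sets each contained in some `W x` with `n x = n`; it is countable, and the
corresponding countably many `O x` cover `{x | n x = n}`.
-/

set_option autoImplicit false

open Set Topology

namespace Pool.Agent.Results.MP_46c3d4_gt.RectifiablePSpaces

universe u

/-- `X` is rectifiable: there are a point `e` and a homeomorphism `φ` of `X × X` onto itself with
`φ ({x} × X) = {x} × X` and `φ (x, x) = (x, e)` for all `x`. -/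
def Rectifiable (X : Type u) [TopologicalSpace X] : Prop :=
  ∃ (e : X) (φ : X × X ≃ₜ X × X),
    ∀ x : X, φ '' ({x} ×ˢ univ) = {x} ×ˢ univ ∧ φ (x, x) = (x, e)

/-- `X` is a `p`-space: `X` is Tychonoff and there is a sequence `γ` of families of open subsets of
`βX`, each covering `X`, such that the intersection of the stars `St (x, γ n)` lies in `X` for each
`x ∈ X`. -/
def PSpace (X : Type u) [TopologicalSpace X] : Prop :=
  T35Space X ∧ ∃ γ : ℕ → Set (Set (StoneCech X)),
    (∀ n, (∀ U ∈ γ n, IsOpen U) ∧ range (stoneCechUnit : X → StoneCech X) ⊆ ⋃₀ γ n) ∧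
    ∀ x : X, ⋂ n, ⋃₀ {U ∈ γ n | stoneCechUnit x ∈ U} ⊆ range (stoneCechUnit : X → StoneCech X)

/-- The Souslin number of `X` is countable: every family of pairwise disjoint nonempty open sets is
countable. -/
def CountableSouslinNumber (X : Type u) [TopologicalSpace X] : Prop :=
  ∀ 𝒰 : Set (Set X), (∀ U ∈ 𝒰, IsOpen U ∧ U.Nonempty) → 𝒰.PairwiseDisjoint id → 𝒰.Countable

variable {X : Type u} [TopologicalSpace X]

/-- A point of a `p`-space lies in a compact set of countable character. -/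
theorem exists_compact_countable_character (hX : PSpace X) (e : X) :
    ∃ (K : Set X) (V : ℕ → Set X), IsCompact K ∧ e ∈ K ∧ (∀ n, IsOpen (V n)) ∧
      (∀ n, K ⊆ V n) ∧ ∀ O : Set X, IsOpen O → K ⊆ O → ∃ n, V n ⊆ O := by
  obtain ⟨hT, γ, hγ, hst⟩ := hX
  have hemb : IsEmbedding (stoneCechUnit : X → StoneCech X) := isEmbedding_stoneCechUnit
  -- choose members containing `e`
  have h1 : ∀ n, ∃ U ∈ γ n, stoneCechUnit e ∈ U := fun n =>
    mem_sUnion.1 ((hγ n).2 (mem_range_self e))
  choose U hU heU using h1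
  have hUo : ∀ n, IsOpen (U n) := fun n => (hγ n).1 _ (hU n)
  -- shrink
  have h2 : ∀ A : Set (StoneCech X), IsOpen A → stoneCechUnit e ∈ A →
      ∃ B : Set (StoneCech X), IsOpen B ∧ stoneCechUnit e ∈ B ∧ closure B ⊆ A := by
    intro A hA heA
    obtain ⟨C, hC, hCc, hCA⟩ := exists_mem_nhds_isClosed_subset (hA.mem_nhds heA)
    refine ⟨interior C, isOpen_interior, mem_interior_iff_mem_nhds.2 hC, ?_⟩
    exact (closure_minimal interior_subset hCc).trans hCA
  let S : Type u := {A : Set (StoneCech X) // IsOpen A ∧ stoneCechUnit e ∈ A}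
  have h3 : ∀ (n : ℕ) (A : S), ∃ B : S, closure B.1 ⊆ A.1 ∩ U n := by
    intro n A
    obtain ⟨B, hB1, hB2, hB3⟩ := h2 (A.1 ∩ U n) (A.2.1.inter (hUo n)) ⟨A.2.2, heU n⟩
    exact ⟨⟨B, hB1, hB2⟩, hB3⟩
  choose g hg using h3
  let O : ℕ → S := fun n => Nat.rec ⟨univ, isOpen_univ, mem_univ _⟩ (fun n A => g n A) n
  have hO : ∀ n, closure (O (n + 1)).1 ⊆ (O n).1 ∩ U n := fun n => hg n (O n)
  have hanti : Antitone fun n => closure (O n).1 := by
    refine antitone_nat_of_succ_le fun n => ?_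
    exact (hO n).trans (inter_subset_left.trans subset_closure)
  let K' : Set (StoneCech X) := ⋂ n, closure (O n).1
  have hK'c : IsClosed K' := isClosed_iInter fun n => isClosed_closure
  have hK'O : ∀ n, K' ⊆ (O n).1 := fun n =>
    (iInter_subset _ (n + 1)).trans ((hO n).trans inter_subset_left)
  have hK'X : K' ⊆ range (stoneCechUnit : X → StoneCech X) := by
    refine Subset.trans ?_ (hst e)
    refine subset_iInter fun n => ?_
    intro z hz
    exact ⟨U n, ⟨hU n, heU n⟩, ((iInter_subset _ (n + 1)).trans (hO n) hz).2⟩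
  have hbase : ∀ A : Set (StoneCech X), IsOpen A → K' ⊆ A → ∃ n, (O n).1 ⊆ A := by
    intro A hA hKA
    have hc : IsCompact (univ : Set (StoneCech X)) := isCompact_univ
    obtain ⟨n, hn⟩ := exists_subset_nhds_of_isCompact' (V := fun n => closure (O n).1)
      hanti.directed_ge (fun n => isClosed_closure.isCompact) (fun n => isClosed_closure)
      (U := A) (fun z hz => hA.mem_nhds (hKA hz))
    exact ⟨n, subset_closure.trans hn⟩
  refine ⟨stoneCechUnit ⁻¹' K', fun n => stoneCechUnit ⁻¹' (O n).1, ?_, ?_, ?_, ?_, ?_⟩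
  · rw [hemb.isInducing.isCompact_preimage_iff hK'X]
    exact hK'c.isCompact
  · exact mem_iInter.2 fun n => subset_closure (O n).2.2
  · exact fun n => (O n).2.1.preimage continuous_stoneCechUnit
  · exact fun n => preimage_mono (hK'O n)
  · intro A hA hKA
    obtain ⟨B, hB, rfl⟩ := hemb.isInducing.isOpen_iff.1 hA
    have : K' ⊆ B := by
      intro z hz
      obtain ⟨x, rfl⟩ := hK'X hz
      exact hKA hz
    obtain ⟨n, hn⟩ := hbase B hB this
    exact ⟨n, preimage_mono hn⟩

/-- The division and multiplication attached to a rectification. -/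
theorem exists_operations (hX : Rectifiable X) :
    ∃ (e : X) (p q : X × X → X), Continuous p ∧ Continuous q ∧ (∀ x, q (x, x) = e) ∧
      ∀ x y, p (x, q (x, y)) = y := by
  obtain ⟨e, φ, hφ⟩ := hX
  have h1 : ∀ z : X × X, (φ z).1 = z.1 := by
    rintro ⟨x, y⟩
    have : φ (x, y) ∈ ({x} ×ˢ univ : Set (X × X)) := by
      rw [← (hφ x).1]
      exact mem_image_of_mem φ ⟨rfl, mem_univ _⟩
    exact this.1
  refine ⟨e, fun z => (φ.symm z).2, fun z => (φ z).2, continuous_snd.comp φ.symm.continuous,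
    continuous_snd.comp φ.continuous, fun x => ?_, fun x y => ?_⟩
  · simp only
    rw [(hφ x).2]
  · have h2 : (x, (φ (x, y)).2) = φ (x, y) := Prod.ext (h1 (x, y)).symm rfl
    show (φ.symm (x, (φ (x, y)).2)).2 = y
    rw [h2, φ.symm_apply_apply]

/-- **Theorem.** Every rectifiable `p`-space with countable Souslin number is Lindelöf. -/
theorem result (X : Type u) [TopologicalSpace X] (hR : Rectifiable X) (hp : PSpace X)
    (hc : CountableSouslinNumber X) : LindelofSpace X := by
  classical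
  obtain ⟨e, p, q, hpc, hqc, hqe, hpq⟩ := exists_operations hR
  obtain ⟨K, V, hK, heK, hVo, hKV, hV⟩ := exists_compact_countable_character hp e
  have : Nonempty X := ⟨e⟩
  refine ⟨?_⟩
  rw [isLindelof_iff_countable_subcover]
  intro ι U hUo hUcov
  have hcov : ∀ x, ∃ i, x ∈ U i := fun x => mem_iUnion.1 (hUcov (mem_univ x))
  -- local data
  have hloc : ∀ x : X, ∃ (t : Finset ι) (n : ℕ) (W : Set X), IsOpen W ∧ x ∈ W ∧
      (∀ y ∈ W, ∀ v ∈ V n, p (y, v) ∈ ⋃ i ∈ t, U i) ∧
      (∀ y ∈ W, ∀ z ∈ W, q (y, z) ∈ V n) := by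
    intro x
    have hKx : IsCompact ((fun v => p (x, v)) '' K) :=
      hK.image (hpc.comp (Continuous.prodMk_right x))
    obtain ⟨t, ht⟩ := hKx.elim_finite_subcover U hUo
      (fun z _ => mem_iUnion.2 (hcov z))
    have hO : IsOpen (⋃ i ∈ t, U i) := isOpen_biUnion fun i _ => hUo i
    have hsub : ({x} : Set X) ×ˢ K ⊆ p ⁻¹' (⋃ i ∈ t, U i) := by
      rintro ⟨a, b⟩ ⟨ha, hb⟩
      have ha' : a = x := ha
      subst ha'
      exact ht ⟨b, hb, rfl⟩
    obtain ⟨A, B, hA, hB, hxA, hKB, hAB⟩ :=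
      generalized_tube_lemma isCompact_singleton hK (hO.preimage hpc) hsub
    obtain ⟨n, hn⟩ := hV B hB hKB
    have hq : IsOpen (q ⁻¹' V n) := (hVo n).preimage hqc
    have hxx : (x, x) ∈ q ⁻¹' V n := by
      show q (x, x) ∈ V n
      rw [hqe]
      exact hKV n heK
    obtain ⟨C, D, hC, hD, hxC, hxD, hCD⟩ := isOpen_prod_iff.1 hq x x hxx
    refine ⟨t, n, A ∩ (C ∩ D), hA.inter (hC.inter hD), ⟨hxA rfl, hxC, hxD⟩, ?_, ?_⟩
    · intro y hy v hv
      exact hAB ⟨hy.1, hn hv⟩
    · intro y hy z hz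
      exact hCD ⟨hy.2.1, hz.2.2⟩
  choose t n W hWo hxW h1 h2 using hloc
  -- fixed `m`
  have key : ∀ m : ℕ, ∃ s : Set ι, s.Countable ∧ ∀ x, n x = m → ∃ i ∈ s, x ∈ U i := by
    intro m
    -- maximal disjoint family of nonempty open sets, each inside some `W x` with `n x = m`
    let P : Set (Set (Set X)) := {𝒟 | (∀ B ∈ 𝒟, IsOpen B ∧ B.Nonempty ∧ ∃ x, n x = m ∧ B ⊆ W x) ∧
      𝒟.PairwiseDisjoint id}
    obtain ⟨𝒟, h𝒟⟩ : ∃ 𝒟, Maximal (· ∈ P) 𝒟 := by
      refine zorn_subset P ?_
      intro c hc hchain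
      refine ⟨⋃₀ c, ⟨?_, ?_⟩, fun s hs => subset_sUnion_of_mem hs⟩
      · rintro B ⟨s, hs, hB⟩
        exact (hc hs).1 B hB
      · rintro B ⟨s, hs, hB⟩ B' ⟨s', hs', hB'⟩ hne
        rcases hchain.total hs hs' with h | h
        · exact (hc hs').2 (h hB) hB' hne
        · exact (hc hs).2 hB (h hB') hne
    have hcount : 𝒟.Countable := hc 𝒟 (fun B hB => ⟨(h𝒟.prop.1 B hB).1, (h𝒟.prop.1 B hB).2.1⟩)
      h𝒟.prop.2
    have hx : ∀ B ∈ 𝒟, ∃ x, n x = m ∧ B ⊆ W x := fun B hB => (h𝒟.prop.1 B hB).2.2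
    choose! f hf1 hf2 using hx
    refine ⟨⋃ B ∈ 𝒟, (t (f B) : Set ι), hcount.biUnion fun B _ => (t (f B)).countable_toSet, ?_⟩
    intro z hz
    -- `W z` meets some member of `𝒟`
    have hmeet : ∃ B ∈ 𝒟, (W z ∩ B).Nonempty := by
      by_contra hno
      push Not at hno
      have hmem : insert (W z) 𝒟 ∈ P := by
        refine ⟨?_, ?_⟩
        · intro B hB
          rcases mem_insert_iff.1 hB with rfl | hB
          · exact ⟨hWo z, ⟨z, hxW z⟩, z, hz, subset_rfl⟩
          · exact h𝒟.prop.1 B hB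
        · refine h𝒟.prop.2.insert ?_
          intro B hB _
          exact Set.disjoint_iff_inter_eq_empty.2 (hno B hB)
      have hle := h𝒟.le_of_ge hmem (subset_insert _ _)
      have hWD : W z ∈ 𝒟 := hle (mem_insert _ _)
      have := hno _ hWD
      rw [inter_self] at this
      exact (this ▸ hxW z : z ∈ (∅ : Set X))
    obtain ⟨B, hB, y, hyz, hyB⟩ := hmeet
    have hyf : y ∈ W (f B) := hf2 B hB hyB
    have hqv : q (y, z) ∈ V (n (f B)) := by
      rw [hf1 B hB, ← hz]
      exact h2 z y hyz z (hxW z)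
    have hpz := h1 (f B) y hyf _ hqv
    rw [hpq] at hpz
    obtain ⟨i, hi, hzi⟩ := mem_iUnion₂.1 hpz
    exact ⟨i, mem_biUnion hB hi, hzi⟩
  choose s hs hsU using key
  refine ⟨⋃ m, s m, countable_iUnion hs, ?_⟩
  intro x _
  obtain ⟨i, hi, hxi⟩ := hsU (n x) x rfl
  exact mem_biUnion (mem_iUnion.2 ⟨n x, hi⟩) hxi

end Pool.Agent.Results.MP_46c3d4_gt.RectifiablePSpaces
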